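import Mathlib
import Pool.Agent.V11180.HamCirc

/-!
# MP_688fd0_co: generating sets closed under conjugation by a normal subgroup `K`

Let `K` be a normal subgroup of the finite group `G` with `[K, G]` solvable and let the nonempty
generating set `A` be closed under conjugation by `K`. Then every listing sequence with product `1`
for the image of `A` in `G / [K, G]` gives one for `A`. There is one for `A` if `G / [K, G]` is a
`p`-group, and if `A` is symmetric and `[K, G] = [G, G]`.
-/

set_option autoImplicit false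

namespace Pool.Agent.Results.MP_688fd0_co.CircuitsModuloCommutators

/-- There is a listing sequence of elements of `A` whose product is `1`. -/
def Circuit {G : Type*} [Group G] (A : Set G) : Prop :=
  ∃ l : List G, l.length = Nat.card G ∧ (∀ x ∈ l, x ∈ A) ∧
    Set.InjOn (fun k : ℕ => (l.take k).prod) (Set.Icc 1 (Nat.card G)) ∧ l.prod = 1

theorem result (G : Type*) [Group G] [Finite G] (K : Subgroup G) [K.Normal]
    (hsolv : Group.IsSolvable (⁅K, (⊤ : Subgroup G)⁆ : Subgroup G)) (A : Set G)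
    (hne : A.Nonempty) (hgen : Subgroup.closure A = ⊤)
    (hA : ∀ k ∈ K, ∀ c ∈ A, k * c * k⁻¹ ∈ A) :
    (Circuit ((QuotientGroup.mk' ⁅K, (⊤ : Subgroup G)⁆) '' A) → Circuit A) ∧
    ((∃ p : ℕ, p.Prime ∧ ∀ g : G, ∃ n : ℕ, g ^ (p ^ n) ∈ ⁅K, (⊤ : Subgroup G)⁆) → Circuit A) ∧
    ((∀ a ∈ A, a⁻¹ ∈ A) → ⁅K, (⊤ : Subgroup G)⁆ = ⁅(⊤ : Subgroup G), (⊤ : Subgroup G)⁆ →
      Circuit A) := by
  refine ⟨?_, ?_, ?_⟩
  · rintro ⟨l, h1, h2, h3, h4⟩
    exact Pool.Agent.V11180.HamS.list_of_closed A
      (Pool.Agent.V11180.HamS.thmK _ G K rfl hsolv A hA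
        (Pool.Agent.V11180.HamS.closed_of_circuit _ l h1 h2 h3 h4))
  · intro hp
    exact Pool.Agent.V11180.HamS.list_of_closed A
      (Pool.Agent.V11180.HamS.closed_symmetric K hsolv A hne hgen hA (Or.inl hp))
  · intro hinv hK
    exact Pool.Agent.V11180.HamS.list_of_closed A
      (Pool.Agent.V11180.HamS.closed_symmetric K hsolv A hne hgen hA (Or.inr ⟨hinv, hK.ge⟩))

end Pool.Agent.Results.MP_688fd0_co.CircuitsModuloCommutators
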