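import Mathlib
import Pool.Agent.H65T.NC.Final

set_option autoImplicit false

/-!
# Listing sequences from a subgroup that normalises generators
-/

namespace Pool.Agent.Results.MP_688fd0_co.NormalisedBySubgroup

/-- Let `A` be a nonempty symmetric generating set of the finite group `G` and `H` a subgroup of `G`.
Write `T` for the set of those `s ∈ A` all of whose conjugates by elements of `H` lie in `A`.
Suppose that `H` is generated by elements of `T ∩ H`, or that the Cayley graph of `H` with respect
to `A ∩ H` has a Hamiltonian cycle (a closed listing sequence `b`). If the commutator subgroup of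
`G` is contained in `H`, or `|H| ≥ 3` and it is contained in the subgroup generated by `H ∪ T`,
then `G` has a listing sequence from `A`; and if `|H| ≥ 3` and `H ∪ T` generates `G`, there is a
closed one, that is, a Hamiltonian cycle. -/
theorem result {G : Type} [Group G] [Finite G] (A : Set G) (hne : A.Nonempty)
    (hsymm : ∀ a ∈ A, a⁻¹ ∈ A) (hgen : Subgroup.closure A = ⊤) (H : Subgroup G)
    (hH : H ≤ Subgroup.closure {s ∈ A | s ∈ H ∧ ∀ h ∈ H, h * s * h⁻¹ ∈ A} ∨
      ∃ b : Fin (Nat.card H) → G, (∀ i, b i ∈ A ∧ b i ∈ H) ∧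
        Function.Injective (fun k : Fin (Nat.card H) => Fin.partialProd b k.succ) ∧
        Fin.partialProd b (Fin.last (Nat.card H)) = 1)
    (hcomm : commutator G ≤ H ∨ (3 ≤ Nat.card H ∧ commutator G ≤
      Subgroup.closure ((H : Set G) ∪ {s ∈ A | ∀ h ∈ H, h * s * h⁻¹ ∈ A}))) :
    ∃ a : Fin (Nat.card G) → G, (∀ i, a i ∈ A) ∧
      Function.Injective (fun k : Fin (Nat.card G) => Fin.partialProd a k.succ) ∧
      (3 ≤ Nat.card H →
        Subgroup.closure ((H : Set G) ∪ {s ∈ A | ∀ h ∈ H, h * s * h⁻¹ ∈ A}) = ⊤ →
        Fin.partialProd a (Fin.last (Nat.card G)) = 1) :=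
  Pool.Agent.H65T.NC.normalised_main A hne hsymm hgen H hH hcomm

end Pool.Agent.Results.MP_688fd0_co.NormalisedBySubgroup
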