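import Mathlib
import Pool.Agent.H207.NL.Final

/-!
# MP_688fd0_co: listing sequences for sets closed under conjugation by a solvable normal subgroup

Let `A` be a nonempty symmetric generating set of a finite group `G`, `N` a solvable normal
subgroup of `G` with `n a n⁻¹ ∈ A` for `n ∈ N` and `a ∈ A`, and `A₀` the set of the elements of `A`
whose whole conjugacy class lies in `A`.  If `A` is closed under conjugation modulo
`[N, G] ⟨A₀⟩`, for example if `G / N` is cyclic, then there is a listing sequence of elements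
of `A`.
-/

set_option autoImplicit false

namespace Pool.Agent.Results.MP_688fd0_co.RelativelyClosed

universe u

theorem result (G : Type u) [Group G] [Finite G] (N : Subgroup G) [N.Normal]
    (hN : Group.IsSolvable N) (A : Set G) (hne : A.Nonempty) (hsymm : ∀ a ∈ A, a⁻¹ ∈ A)
    (hgen : Subgroup.closure A = ⊤) (hconj : ∀ n ∈ N, ∀ a ∈ A, n * a * n⁻¹ ∈ A)
    (hmod : ∀ g : G, ∀ a ∈ A, ∃ b ∈ A, (g * a * g⁻¹)⁻¹ * b ∈
      ⁅N, (⊤ : Subgroup G)⁆ ⊔ Subgroup.closure {a ∈ A | ∀ g : G, g * a * g⁻¹ ∈ A}) :
    ∃ a : Fin (Nat.card G) → G, (∀ i, a i ∈ A) ∧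
      Function.Injective (fun k : Fin (Nat.card G) => Fin.partialProd a k.succ) :=
  Pool.Agent.H207.NL.listing_main N hN A hne hsymm hgen hconj hmod

end Pool.Agent.Results.MP_688fd0_co.RelativelyClosed
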