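import Mathlib
import Pool.Agent.V11180.HamRed

/-!
# MP_688fd0_co: listing sequences for conjugation-closed generating sets of solvable groups

Every nonempty generating set `A` of a finite solvable group `G` that is closed under conjugation
(it need not be symmetric) has a listing sequence `a₁, …, aₙ ∈ A`, `n = |G|`: the partial products
`a₁ ⋯ aₖ`, `1 ≤ k ≤ n`, are pairwise distinct.
-/

set_option autoImplicit false

namespace Pool.Agent.Results.MP_688fd0_co.SolvableConjClosed

theorem result (G : Type*) [Group G] [Finite G] (hG : Group.IsSolvable G) (A : Set G)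
    (hA : A.Nonempty) (hgen : Subgroup.closure A = ⊤)
    (hconj : ∀ g : G, ∀ a ∈ A, g * a * g⁻¹ ∈ A) :
    ∃ l : List G, l.length = Nat.card G ∧ (∀ x ∈ l, x ∈ A) ∧
      Set.InjOn (fun k : ℕ => (l.take k).prod) (Set.Icc 1 (Nat.card G)) :=
  Pool.Agent.V11180.HamS.listing_of_path A hA
    (Pool.Agent.V11180.HamS.path_main _ G rfl hG A hgen hconj)

end Pool.Agent.Results.MP_688fd0_co.SolvableConjClosed
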